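import Pool.Agent.Helper20.P3F.St1
import Pool.Agent.Helper64.EQ.M_EVS

/-!
# Project P3F (MP_cb927e_an), module FEW: summation of the four alternatives at exponent three
-/

set_option autoImplicit false

open MeasureTheory Set Filter Topology
open scoped ENNReal RealInnerProductSpace

namespace Pool.Agent.Helper8.P3F

open Pool.Agent.Helper68.LM (Pl BB Bd Av HL ft fm DQ)
open Pool.Agent.Helper20.RG Pool.Agent.Helper20.EQ Pool.Agent.Helper20.P3F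
open Pool.Agent.Helper61.P3
open Pool.Agent.Helper64.EQ (EVS_m1 EVS_m2 EVS_m3 EVS_m4 EVS_sum EVS_add4 EVS_b)
open Pool.Agent.Helper68.EP (elt GapP)

/-- two parameters, one class with a condition, one scale -/
theorem FEW_m3 (P : ℕ → ℕ → Prop) [∀ t ρ, Decidable (P t ρ)]
    (Q : ℕ → ℕ → ℕ → Prop) [∀ t ρ u, Decidable (Q t ρ u)] (q : ℕ → ℕ → ℕ → ℤ → Pl → Prop) :
    volume {x | ∃ t ρ : ℕ, P t ρ ∧ ∃ u : ℕ, Q t ρ u ∧ ∃ k : ℤ, q t ρ u k x} ≤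
      ∑' t : ℕ, ∑' ρ : ℕ, if P t ρ then
        ∑' u : ℕ, (if Q t ρ u then ∑' k : ℤ, volume {x | q t ρ u k x} else 0) else 0 := by
  refine (EVS_m1 _).trans (ENNReal.tsum_le_tsum fun t => ?_)
  refine (EVS_m1 _).trans (ENNReal.tsum_le_tsum fun ρ => ?_)
  refine (EVS_m2 _ _).trans ?_
  by_cases h : P t ρ
  · rw [if_pos h, if_pos h]
    refine (EVS_m1 _).trans (ENNReal.tsum_le_tsum fun u => ?_)
    refine (EVS_m2 _ _).trans ?_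
    by_cases hu : Q t ρ u
    · rw [if_pos hu, if_pos hu]
      exact EVS_m1 _
    · rw [if_neg hu, if_neg hu]
  · rw [if_neg h, if_neg h]

theorem hFEW (hPIG3 : StPIG3) (hONE3 : StONE3) (hHBS3 : StHBS3) (hHAS3 : StHAS3) :
    Pool.Agent.Helper20.P3F.StFEW := by
  intro φ τ A c hG hA hgap κ hκ
  obtain ⟨e, he⟩ : ∃ e : ℝ, e = 1 / (100 * ((κ : ℝ) + 1)) := ⟨_, rfl⟩
  have hκ' : (1 : ℝ) ≤ κ := by exact_mod_cast hκ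
  have he0 : 0 < e := by rw [he]; positivity
  have he100 : e ≤ 1 / 100 := by
    rw [he]
    refine one_div_le_one_div_of_le (by norm_num) ?_
    nlinarith
  have hCρ1 : (1 : ℝ) ≤ ((8 : ℕ) : ℝ) := by norm_num
  obtain ⟨CO, hCO, hO⟩ := hONE3 φ τ A 3 c hG hA hgap (by norm_num) le_rfl
  obtain ⟨CH, C₂, hCH, hC₂, hH⟩ := hHBS3 φ τ A 3 c hG hA hgap (by norm_num) le_rfl
  obtain ⟨CA, t₁, hCA, hAS⟩ := hHAS3 φ τ A e c hG hA hgap κ 8 hκ he0 (le_of_eq he)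
  obtain ⟨t₀, ht₀, hP⟩ := hPIG3 φ τ e c hG he0 he100 κ C₂ 8 t₁ hκ hC₂
  obtain ⟨K₁, hK₁, hb₁⟩ := EVS_b 3 1 (by norm_num) one_pos
  obtain ⟨K₂, hK₂, hb₂⟩ := EVS_b 1 (1 / 2) one_pos (by norm_num)
  obtain ⟨K₃, hK₃, hb₃⟩ := EVS_b 1 1 one_pos one_pos
  obtain ⟨K₄, hK₄, hb₄⟩ := EVS_b (e / 4) (e / 32) (by linarith) (by positivity)
  obtain ⟨B₁, hB₁⟩ : ∃ B, B = CO * (2 : ℝ) ^ (3 * (t₀ : ℝ)) * K₁ := ⟨_, rfl⟩
  obtain ⟨B₂, hB₂⟩ : ∃ B, B = CO * (2 : ℝ) ^ (0 : ℝ) * K₂ := ⟨_, rfl⟩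
  obtain ⟨B₃, hB₃⟩ : ∃ B, B = CH * (2 : ℝ) ^ (0 : ℝ) * K₃ := ⟨_, rfl⟩
  obtain ⟨B₄, hB₄⟩ : ∃ B, B = CA * (2 : ℝ) ^ (0 : ℝ) * K₄ := ⟨_, rfl⟩
  have hB₁0 : 0 ≤ B₁ := by rw [hB₁]; positivity
  have hB₂0 : 0 ≤ B₂ := by rw [hB₂]; positivity
  have hB₃0 : 0 ≤ B₃ := by rw [hB₃]; positivity
  have hB₄0 : 0 ≤ B₄ := by rw [hB₄]; positivity
  refine ⟨CH + CA + B₁ + B₂ + B₃ + B₄, by linarith, ?_⟩
  intro R₀ f hR₀ hf hf0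
  obtain ⟨I, hI⟩ : ∃ I, I = ∫⁻ x, ENNReal.ofReal (f x) ^ (3 : ℝ) := ⟨_, rfl⟩
  rw [← hI]
  -- the four sums
  have s1 := EVS_sum (fun l : ℤ => ENNReal.ofReal ((2 : ℝ) ^ ((3 : ℝ) * l)))
    (fun l n ρ => ∑' u : ℕ, (if 2 ≤ u then ∑' k : ℤ,
      volume {x | (Hh c φ τ u ρ k (lev f (l - ((t₀ : ℤ) - (n : ℤ)) + u + ρ)) x).Nonempty} else 0))
    (fun _ _ => True)
    (fun n ρ => ENNReal.ofReal (CO * (2 : ℝ) ^ ((3 : ℝ) * (((t₀ : ℤ) - (n : ℤ) : ℤ) : ℝ) -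
      ((3 : ℝ) - 2) * ρ)))
    I (ENNReal.ofReal B₁) (fun n ρ _ => by
      rw [hI]
      exact hO ((t₀ : ℤ) - (n : ℤ)) ρ f hf hf0) (by
      rw [hB₁]
      refine hb₁ CO (3 * (t₀ : ℝ)) (fun _ _ => True) _ hCO.le fun n ρ _ => ?_
      push_cast
      linarith)
  have s2 := EVS_sum (fun l : ℤ => ENNReal.ofReal ((2 : ℝ) ^ ((3 : ℝ) * l)))
    (fun l t ρ => ∑' u : ℕ, (if 2 ≤ u then ∑' k : ℤ,
      volume {x | (Hh c φ τ u ρ k (lev f (l - (t : ℤ) + u + ρ)) x).Nonempty} else 0))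
    (fun t ρ => t₀ ≤ t ∧ 8 * t ≤ ρ)
    (fun t ρ => ENNReal.ofReal (CO * (2 : ℝ) ^ ((3 : ℝ) * (((t : ℤ) : ℤ) : ℝ) -
      ((3 : ℝ) - 2) * ρ)))
    I (ENNReal.ofReal B₂) (fun t ρ _ => by
      rw [hI]
      exact hO (t : ℤ) ρ f hf hf0) (by
      rw [hB₂]
      refine hb₂ CO 0 (fun t ρ => t₀ ≤ t ∧ 8 * t ≤ ρ) _ hCO.le fun t ρ h => ?_
      have h1 : (8 : ℝ) * t ≤ ρ := by exact_mod_cast h.2
      have h2 : (0 : ℝ) ≤ t := Nat.cast_nonneg _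
      push_cast
      linarith)
  have s3 := EVS_sum (fun l : ℤ => ENNReal.ofReal ((2 : ℝ) ^ ((3 : ℝ) * l)))
    (fun l t ρ => ∑' (u : ℕ) (s : ℕ),
        (if C₂ * (t + ρ + 1) ≤ u ∧ C₂ * (t + ρ + 1) ≤ s then
          ∑' k : ℤ, volume {x | Gd R₀ l f x ∧ (Hh c φ τ u ρ k (lev f (l - t + u + ρ)) x).Nonempty ∧
            (Hh c φ τ (u + s) ρ k (lev f (l - t + (u + s) + ρ)) x).Nonempty} else 0))
    (fun t ρ => t₀ ≤ t ∧ ρ ≤ 8 * t)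
    (fun t ρ => ENNReal.ofReal (CH * (2 : ℝ) ^ (-((t : ℝ) + ρ))))
    I (ENNReal.ofReal B₃) (fun t ρ _ => by
      rw [hI]
      exact hH R₀ t ρ f (by linarith) hf hf0) (by
      rw [hB₃]
      refine hb₃ CH 0 (fun t ρ => t₀ ≤ t ∧ ρ ≤ 8 * t) _ (by linarith) fun t ρ h => ?_
      linarith)
  have s4 := EVS_sum (fun l : ℤ => ENNReal.ofReal ((2 : ℝ) ^ ((3 : ℝ) * l)))
    (fun l t ρ => ∑' u : ℕ, (if 2 ≤ u ∧ (u : ℝ) ≤ κ * ((u : ℝ) - t + ρ + 1) then ∑' k : ℤ,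
      volume {x | Gd R₀ l f x ∧ (2 : ℝ) ^ ((1 - e) * t) ≤
          ((Hh c φ τ u ρ k (lev f (l - t + u + ρ)) x).ncard : ℝ)} else 0))
    (fun t ρ => t₀ ≤ t ∧ ρ ≤ 8 * t)
    (fun t ρ => ENNReal.ofReal (CA * (2 : ℝ) ^ (-(e / 2 * t))))
    I (ENNReal.ofReal B₄) (fun t ρ h => by
      rw [hI]
      exact hAS R₀ t ρ f (by linarith) (ht₀.trans h.1) h.2 hf hf0) (by
      rw [hB₄]
      refine hb₄ CA 0 (fun t ρ => t₀ ≤ t ∧ ρ ≤ 8 * t) _ (by linarith) fun t ρ h => ?_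
      have h1 : (ρ : ℝ) ≤ 8 * t := by exact_mod_cast h.2
      have h3 : e / 32 * ρ ≤ e / 32 * (8 * t) :=
        mul_le_mul_of_nonneg_left h1 (by positivity)
      linarith)
  -- the measure of the set
  have hm : ∀ l : ℤ, volume {x | Gd R₀ l f x ∧ ∃ k : ℤ,
        ENNReal.ofReal (1 / 2) ≤
          ∑' u : ℕ, (if 2 ≤ u then HtF c φ τ κ u k l f x else 0)} ≤
      volume {x | ∃ n ρ : ℕ, True ∧ ∃ u : ℕ, 2 ≤ u ∧ ∃ k : ℤ,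
        (Hh c φ τ u ρ k (lev f (l - ((t₀ : ℤ) - (n : ℤ)) + u + ρ)) x).Nonempty} +
      volume {x | ∃ t ρ : ℕ, (t₀ ≤ t ∧ 8 * t ≤ ρ) ∧ ∃ u : ℕ, 2 ≤ u ∧ ∃ k : ℤ,
        (Hh c φ τ u ρ k (lev f (l - (t : ℤ) + u + ρ)) x).Nonempty} +
      volume {x | ∃ t ρ : ℕ, (t₀ ≤ t ∧ ρ ≤ 8 * t) ∧ ∃ u s : ℕ,
        (C₂ * (t + ρ + 1) ≤ u ∧ C₂ * (t + ρ + 1) ≤ s) ∧ ∃ k : ℤ,
          Gd R₀ l f x ∧ (Hh c φ τ u ρ k (lev f (l - t + u + ρ)) x).Nonempty ∧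
            (Hh c φ τ (u + s) ρ k (lev f (l - t + (u + s) + ρ)) x).Nonempty} +
      volume {x | ∃ t ρ : ℕ, (t₀ ≤ t ∧ ρ ≤ 8 * t) ∧ ∃ u : ℕ,
        (2 ≤ u ∧ (u : ℝ) ≤ κ * ((u : ℝ) - t + ρ + 1)) ∧ ∃ k : ℤ,
        Gd R₀ l f x ∧ (2 : ℝ) ^ ((1 - e) * t) ≤
          ((Hh c φ τ u ρ k (lev f (l - t + u + ρ)) x).ncard : ℝ)} := by
    intro l
    refine le_trans (measure_mono ?_) ((measure_union_le _ _).trans
      (add_le_add ((measure_union_le _ _).trans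
        (add_le_add (measure_union_le _ _) le_rfl)) le_rfl))
    rintro x ⟨hx, k, hk⟩
    rcases hP f l k x hf hf0 hk with ⟨t, ρ, u, h1, h2, h3⟩ | ⟨t, ρ, u, h1, h2, h3, h4⟩ |
      ⟨t, ρ, u, s, h1, h2, h3, h4, h5, h6⟩ | ⟨t, ρ, u, h1, h2, h3, h4, h5⟩
    · left; left; left
      refine ⟨((t₀ : ℤ) - t).toNat, ρ, trivial, u, h2, k, ?_⟩
      have : (t₀ : ℤ) - ((((t₀ : ℤ) - t).toNat : ℕ) : ℤ) = t := by omega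
      rw [this]
      exact h3
    · left; left; right
      exact ⟨t, ρ, ⟨h1, h2⟩, u, h3, k, h4⟩
    · left; right
      exact ⟨t, ρ, ⟨h1, h2⟩, u, s, ⟨h3, h4⟩, k, hx, h5, h6⟩
    · right
      exact ⟨t, ρ, ⟨h1, h2⟩, u, ⟨h3, h4⟩, k, hx, h5⟩
  have hm' := fun l : ℤ => (hm l).trans (add_le_add (add_le_add (add_le_add
    (EVS_m3 (fun _ _ => True) (fun n ρ u k x =>
      (Hh c φ τ u ρ k (lev f (l - ((t₀ : ℤ) - (n : ℤ)) + u + ρ)) x).Nonempty))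
    (EVS_m3 (fun t ρ => t₀ ≤ t ∧ 8 * t ≤ ρ) (fun t ρ u k x =>
      (Hh c φ τ u ρ k (lev f (l - (t : ℤ) + u + ρ)) x).Nonempty)))
    (EVS_m4 (fun t ρ => t₀ ≤ t ∧ ρ ≤ 8 * t)
      (fun t ρ u s => C₂ * (t + ρ + 1) ≤ u ∧ C₂ * (t + ρ + 1) ≤ s) (fun t ρ u s k x =>
      Gd R₀ l f x ∧ (Hh c φ τ u ρ k (lev f (l - t + u + ρ)) x).Nonempty ∧
            (Hh c φ τ (u + s) ρ k (lev f (l - t + (u + s) + ρ)) x).Nonempty)))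
    (FEW_m3 (fun t ρ => t₀ ≤ t ∧ ρ ≤ 8 * t)
      (fun t ρ u => 2 ≤ u ∧ (u : ℝ) ≤ κ * ((u : ℝ) - t + ρ + 1)) (fun t ρ u k x =>
      Gd R₀ l f x ∧ (2 : ℝ) ^ ((1 - e) * t) ≤
          ((Hh c φ τ u ρ k (lev f (l - t + u + ρ)) x).ncard : ℝ))))
  have hw : ∀ l : ℤ, ENNReal.ofReal ((2 : ℝ) ^ (3 * l)) =
      ENNReal.ofReal ((2 : ℝ) ^ ((3 : ℝ) * l)) := by
    intro l
    congr 1
    rw [← Real.rpow_intCast]
    push_cast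
    rfl
  simp_rw [hw]
  refine (ENNReal.tsum_le_tsum fun l => mul_le_mul_right (hm' l) _).trans ?_
  refine (le_of_eq (EVS_add4 _ _ _ _ _)).trans ?_
  refine (add_le_add (add_le_add (add_le_add s1 s2) s3) s4).trans ?_
  rw [← add_mul, ← add_mul, ← add_mul, ← ENNReal.ofReal_add hB₁0 hB₂0,
    ← ENNReal.ofReal_add (by positivity) hB₃0, ← ENNReal.ofReal_add (by positivity) hB₄0]
  refine mul_le_mul_left (ENNReal.ofReal_le_ofReal ?_) _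
  linarith

end Pool.Agent.Helper8.P3F
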